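import Pool.Agent.Lib.MP_9cc2ee_lc.Bridge

/-!
The free solvable group of class three and finite rank at least two is bi-interpretable, with
parameters, with the standard model of arithmetic.
-/

set_option autoImplicit false

namespace Pool.Agent.Lib.MP_9cc2ee_lc.Variants.BiInt

open Pool.Agent.Lib.MP_9cc2ee_lc

theorem result (n : ℕ) (hn : 2 ≤ n) :
    BiInterpretable Lgrp Lar
      (FreeGroup (Fin n) ⧸ derivedSeries (FreeGroup (Fin n)) 3) ℕ := by
  obtain ⟨m, rfl⟩ := Nat.exists_eq_add_of_le' hn
  exact biInterp m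

end Pool.Agent.Lib.MP_9cc2ee_lc.Variants.BiInt
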